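import Pool.Agent.H82.EOL.Stmts
import Pool.Agent.H21.EOL.W3

set_option autoImplicit false
set_option linter.unusedSectionVars false

/-!
Board eol (MP_e1dfa1_lc): row W4 (helper93).
-/

namespace Pool.Agent.H93.EOL

open Finset Pool.Agent.H82.SVL Pool.Agent.H82.EOL Pool.Agent.H21.EOL

theorem w4_thm (h3 : S_W3) : S_W4 := by
  intro D _ _ srt Y α β T
  induction T with
  | leaf a =>
    intro g F m m' E π _ hg hE hcard
    simp only [Tree.bind_leaf, Tree.run_leaf, Tree.qs_leaf, union_empty]
    rw [← sum_mul, ← sum_mul, h3 D srt Y β (g a) m' E π (hg a) hE
      (fun b => by have := hcard b; omega)]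
    rw [sum_congr rfl (fun τ _ => by
      rw [w3_ind_true (p := Av Y E ∅ τ) (by intro b hb; simp at hb), one_mul])]
    rw [sum_const, nsmul_eq_mul]
    ring
  | query d k ih =>
    intro g F m m' E π hT hg hE hcard
    cases m with
    | zero => exact absurd hT (by simp [Tree.DLe])
    | succ m =>
      by_cases hd : d ∈ E
      · have := ih (π.1 d) g F m m' E π (hT _) hg hE (fun a => by have := hcard a; omega)
        calc _ = ∑ τ ∈ C E π, ind (Av Y E (Tree.qs τ.1 ((k (π.1 d)).bind g)) τ) *
              gw srt Y (E ∪ Tree.qs τ.1 ((k (π.1 d)).bind g)) * F (Tree.run τ.1 (k (π.1 d))) := by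
              refine sum_congr rfl (fun τ hτ => ?_)
              have e1 : τ.1 d = π.1 d := mem_C.1 hτ d hd
              simp only [Tree.bind_query, Tree.qs_query, Tree.run_query, e1]
              rw [w3_ind_congr (w3_av_mem hd), union_insert, insert_eq_of_mem (mem_union_left _ hd)]
          _ = _ := this
          _ = _ := by
              refine (sum_congr rfl (fun τ hτ => ?_)).symm
              have e1 : τ.1 d = π.1 d := mem_C.1 hτ d hd
              simp only [Tree.qs_query, Tree.run_query, e1]
              rw [w3_ind_congr (w3_av_mem hd), union_insert, insert_eq_of_mem (mem_union_left _ hd)]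
      · rw [sum_C_fiber hd, sum_C_fiber hd]
        refine sum_congr rfl (fun v hv => ?_)
        obtain ⟨σ, hσ, hσd⟩ := Pool.Agent.H82.SVL.exists_apply_eq hd hv
        have e1 : (C E π).filter (fun σ => σ.1 d = v) = C (insert d E) σ := by
          rw [← hσd, filter_eq_C hσ]
        rw [e1]
        have e2 : ∀ τ ∈ C (insert d E) σ, τ.1 d = v := by
          intro τ hτ
          rw [← hσd]
          exact mem_C.1 hτ d (mem_insert_self _ _)
        by_cases hvY : v ∈ Y
        · have hz : ∀ (X : Finset D), ∀ τ ∈ C (insert d E) σ,
              ind (Av Y E (insert d X) τ) = 0 := by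
            intro X τ hτ
            refine w3_ind_false (fun hAv => ?_)
            refine hAv d (mem_insert_self _ _) hd ?_
            rw [e2 τ hτ]
            exact hvY
          rw [sum_eq_zero, sum_eq_zero]
          · intro τ hτ
            rw [Tree.qs_query, hz _ τ hτ, zero_mul, zero_mul]
          · intro τ hτ
            rw [Tree.bind_query, Tree.qs_query, hz _ τ hτ, zero_mul, zero_mul]
        · have hE' : ∀ b ∈ insert d E, σ.1 b ∉ Y := by
            intro b hb
            rcases mem_insert.1 hb with rfl | hb
            · rw [hσd]; exact hvY
            · rw [mem_C.1 hσ b hb]; exact hE b hb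
          have hc' : ∀ a, (insert d E).card + (m + m') + Y.card < (fib srt a).card := by
            intro a
            rw [card_insert_of_notMem hd]
            have := hcard a
            omega
          have := ih v g F m m' (insert d E) σ (hT _) hg hE' hc'
          calc _ = ∑ τ ∈ C (insert d E) σ,
                ind (Av Y (insert d E) (Tree.qs τ.1 ((k v).bind g)) τ) *
                gw srt Y (insert d E ∪ Tree.qs τ.1 ((k v).bind g)) * F (Tree.run τ.1 (k v)) := by
                refine sum_congr rfl (fun τ hτ => ?_)
                simp only [Tree.bind_query, Tree.qs_query, Tree.run_query, e2 τ hτ]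
                rw [w3_ind_congr (w3_av_not hd (by rw [e2 τ hτ]; exact hvY)), union_insert,
                  insert_union]
            _ = _ := this
            _ = _ := by
                refine (sum_congr rfl (fun τ hτ => ?_)).symm
                simp only [Tree.qs_query, Tree.run_query, e2 τ hτ]
                rw [w3_ind_congr (w3_av_not hd (by rw [e2 τ hτ]; exact hvY)), union_insert,
                  insert_union]

end Pool.Agent.H93.EOL
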